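import Pool.Agent.Q120.RC.Stm

/-!
# Project RC, job SMG: marginals of the sequential laws
-/

set_option autoImplicit false

namespace Pool.Agent.Q299.RC

open Finset Pool.Agent.Q120.RC

theorem sum_split (y : ℕ) (F : Finset ℕ → ℝ) :
    ∑ T ∈ (range (y + 1)).powerset, F T = ∑ T ∈ (range y).powerset, (F T + F (insert y T)) := by
  rw [range_add_one, sum_powerset_insert (by simp), ← sum_add_distrib]

theorem pre_insert {T : Finset ℕ} {y n : ℕ} (h : n ≤ y) : pre (insert y T) n = pre T n := by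
  ext j
  rw [mem_pre, mem_pre, mem_insert]
  constructor
  · rintro ⟨h1 | h1, h2⟩
    · omega
    · exact ⟨h1, h2⟩
  · rintro ⟨h1, h2⟩
    exact ⟨Or.inr h1, h2⟩

theorem pre_self {T : Finset ℕ} {y : ℕ} (h : T ⊆ range y) : pre T y = T := by
  ext j
  rw [mem_pre]
  constructor
  · exact fun h1 => h1.1
  · exact fun h1 => ⟨h1, mem_range.1 (h h1)⟩

theorem pre_zero (T : Finset ℕ) : pre T 0 = ∅ := by
  ext j
  rw [mem_pre]
  simp

theorem seqlaw_succ (r : ℕ → Finset ℕ → ℝ) {y : ℕ} {T : Finset ℕ} (h : T ⊆ range y) :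
    seqlaw r (y + 1) T = seqlaw r y T * (1 - r y T) := by
  have h1 : y ∉ T := fun h2 => by simpa using h h2
  unfold seqlaw
  rw [prod_range_succ, if_neg h1, pre_self h]

theorem seqlaw_insert (r : ℕ → Finset ℕ → ℝ) {y : ℕ} {T : Finset ℕ} (h : T ⊆ range y) :
    seqlaw r (y + 1) (insert y T) = seqlaw r y T * r y T := by
  unfold seqlaw
  rw [prod_range_succ, if_pos (mem_insert_self y T), pre_insert le_rfl, pre_self h]
  congr 1
  apply prod_congr rfl
  intro n hn
  rw [mem_range] at hn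
  have h1 : n ∈ insert y T ↔ n ∈ T := by
    rw [mem_insert]
    constructor
    · rintro (h2 | h2)
      · omega
      · exact h2
    · exact Or.inr
  rw [pre_insert hn.le]
  by_cases h2 : n ∈ T
  · rw [if_pos h2, if_pos (h1.2 h2)]
  · rw [if_neg h2, if_neg (fun h3 => h2 (h1.1 h3))]

theorem seqlaw_nonneg {r : ℕ → Finset ℕ → ℝ} (h : ∀ n T, 0 ≤ r n T ∧ r n T ≤ 1) (x : ℕ) (T : Finset ℕ) :
    0 ≤ seqlaw r x T := by
  unfold seqlaw
  apply prod_nonneg
  intro n _
  have h1 := h n (pre T n)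
  split_ifs
  · exact h1.1
  · linarith [h1.2]

theorem smg_aux (r : ℕ → Finset ℕ → ℝ) (x y : ℕ) (hxy : x ≤ y) (f : Finset ℕ → ℝ) :
    ∑ T ∈ (range y).powerset, seqlaw r y T * f (pre T x) = ∑ T ∈ (range x).powerset, seqlaw r x T * f T := by
  induction y, hxy using Nat.le_induction with
  | base =>
    apply sum_congr rfl
    intro T hT
    rw [pre_self (mem_powerset.1 hT)]
  | succ y hy ih =>
    rw [sum_split, ← ih]
    apply sum_congr rfl
    intro T hT
    rw [mem_powerset] at hT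
    rw [seqlaw_succ r hT, seqlaw_insert r hT, pre_insert hy]
    ring

theorem t_SMG : J_SMG := by
  intro r x y hxy
  refine ⟨?_, smg_aux r x y hxy⟩
  have h := smg_aux r 0 y (Nat.zero_le y) (fun _ => 1)
  simp only [mul_one, range_zero, powerset_empty, sum_singleton] at h
  rw [h]
  simp [seqlaw]

end Pool.Agent.Q299.RC
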