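import Pool.Agent.Q299.RC.ABU

/-!
# Project RC, job ABL: partial summation, lower bound
-/

set_option autoImplicit false

namespace Pool.Agent.Q299.RC

open Finset Pool.Agent.Q120.RC

theorem inc_eq (p : ℕ → ℝ) (S : Set ℕ) (x : ℕ) :
    inc p S x = ∑ n ∈ Ico 1 x, p n * ((mx S n : ℝ) - mx S (n - 1)) := by
  classical
  unfold inc
  have h1 : (range x).filter (fun n => up S n) = (Ico 1 x).filter (fun n => up S n) := by
    ext n
    rw [mem_filter, mem_filter, mem_range, mem_Ico]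
    constructor
    · rintro ⟨h2, h3⟩
      exact ⟨⟨up_pos h3, h2⟩, h3⟩
    · rintro ⟨⟨-, h2⟩, h3⟩
      exact ⟨h2, h3⟩
  rw [h1, sum_filter]
  apply sum_congr rfl
  intro n _
  by_cases h : up S n
  · rw [if_pos h, up_mx h]
    push_cast
    ring
  · rw [if_neg h, mx_of_not_up h]
    ring

theorem t_ABL : J_ABL := by
  classical
  intro p b hp hpa hb hb0 S N x hbm
  rcases Nat.lt_or_ge N x with hx | hx
  · obtain ⟨M, rfl⟩ : ∃ M, x = M + 1 := ⟨x - 1, by omega⟩
    have hNM : N ≤ M := by omega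
    rw [inc_eq, ← sum_Ico_consecutive _ (show 1 ≤ N + 1 by omega) (show N + 1 ≤ M + 1 by omega)]
    have h1 := abel (D := fun n => (mx S n : ℝ)) hpa 0 N (Nat.zero_le N) (fun n _ _ => Nat.cast_nonneg _)
    have h2 := abel (D := fun n => (mx S n : ℝ) - b n) hpa N M hNM (fun n h3 h4 => sub_nonneg.2 (hbm n h3 (by omega)))
    have h3 : ∑ n ∈ Ico (N + 1) (M + 1), p n * ((mx S n : ℝ) - mx S (n - 1)) = ∑ n ∈ Ico (N + 1) (M + 1), p n * (b n - b (n - 1)) +
        ∑ n ∈ Ico (N + 1) (M + 1), p n * (((mx S n : ℝ) - b n) - ((mx S (n - 1) : ℝ) - b (n - 1))) := by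
      rw [← sum_add_distrib]
      apply sum_congr rfl
      intro n _
      ring
    have h4 : 0 ≤ p M * ((mx S M : ℝ) - b M) := mul_nonneg (hp M) (sub_nonneg.2 (hbm M hNM (by omega)))
    have h5 : 0 ≤ p N * b N := mul_nonneg (hp N) (hb0 N)
    simp only [mx_zero, Nat.cast_zero, mul_zero, sub_zero, zero_add] at h1
    rw [h3]
    linarith
  · rw [Ico_eq_empty (by omega), sum_empty]
    exact sum_nonneg fun n _ => hp n

end Pool.Agent.Q299.RC
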