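import Pool.Agent.Q120.RC.Stm

/-!
# Project RC, job ABU: partial summation, upper bound
-/

set_option autoImplicit false

namespace Pool.Agent.Q299.RC

open Finset Pool.Agent.Q120.RC

/-- Partial summation. -/
theorem abel {p D : ℕ → ℝ} (hp : Antitone p) (N M : ℕ) (hNM : N ≤ M)
    (hD : ∀ n, N ≤ n → n ≤ M → 0 ≤ D n) :
    p M * D M - p N * D N ≤ ∑ n ∈ Ico (N + 1) (M + 1), p n * (D n - D (n - 1)) := by
  induction M, hNM using Nat.le_induction with
  | base => simp
  | succ M hM ih =>
    have h1 := ih (fun n h2 h3 => hD n h2 (by omega))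
    rw [sum_Ico_succ_top (by omega)]
    have h2 : M + 1 - 1 = M := by omega
    rw [h2]
    have h3 := hD M hM (by omega)
    have h4 : p (M + 1) ≤ p M := hp (by omega)
    have h5 := mul_le_mul_of_nonneg_right h4 h3
    linarith

theorem t_ABU : J_ABU := by
  classical
  intro p b hp hpa hb hb0 S x
  have hnn : 0 ≤ p 0 * b 0 := mul_nonneg (hp 0) (hb0 0)
  rcases Nat.eq_zero_or_pos x with hx | hx
  · subst hx
    simp only [incb, range_zero, filter_empty, sum_empty]
    simpa using hnn
  obtain ⟨M, rfl⟩ : ∃ M, x = M + 1 := ⟨x - 1, by omega⟩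
  set m : ℕ → ℝ := fun n => min (mx S n : ℝ) (b n) with hm
  have hmm : Monotone m := by
    intro i j hij
    exact min_le_min (by exact_mod_cast mx_mono S hij) (hb hij)
  have h1 : incb p b S (M + 1) ≤ ∑ n ∈ Ico 1 (M + 1), p n * (m n - m (n - 1)) := by
    unfold incb
    have h2 : (range (M + 1)).filter (fun n => up S n ∧ (mx S n : ℝ) ≤ b n) ⊆ Ico 1 (M + 1) := by
      intro n hn
      rw [mem_filter, mem_range] at hn
      have := up_pos hn.2.1
      rw [mem_Ico]
      omega
    refine le_trans (sum_le_sum (g := fun n => p n * (m n - m (n - 1))) fun n hn => ?_)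
      (sum_le_sum_of_subset_of_nonneg h2 fun n _ _ => mul_nonneg (hp n) (sub_nonneg.2 (hmm (by omega))))
    rw [mem_filter] at hn
    have h3 : m n = mx S n := min_eq_left hn.2.2
    have h4 : m (n - 1) ≤ mx S (n - 1) := min_le_left _ _
    have h5 : (mx S n : ℝ) = mx S (n - 1) + 1 := by exact_mod_cast up_mx hn.2.1
    have h6 : 1 ≤ m n - m (n - 1) := by linarith
    have h7 := mul_le_mul_of_nonneg_left h6 (hp n)
    linarith
  have h2 := abel (D := fun n => b n - m n) hpa 0 M (Nat.zero_le M) (fun n _ _ => sub_nonneg.2 (min_le_right _ _))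
  have h3 : ∑ n ∈ Ico 1 (M + 1), p n * (m n - m (n - 1)) + ∑ n ∈ Ico (0 + 1) (M + 1), p n * ((b n - m n) - (b (n - 1) - m (n - 1))) =
      ∑ n ∈ Ico 1 (M + 1), p n * (b n - b (n - 1)) := by
    rw [zero_add, ← sum_add_distrib]
    apply sum_congr rfl
    intro n _
    ring
  have h4 : m 0 = 0 := by
    simp only [hm, mx_zero, Nat.cast_zero]
    exact min_eq_left (hb0 0)
  have h5 : 0 ≤ p M * (b M - m M) := mul_nonneg (hp M) (sub_nonneg.2 (min_le_right _ _))
  simp only [h4, sub_zero] at h2
  linarith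

end Pool.Agent.Q299.RC
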