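import Pool.Agent.Q299.RC.SMG

/-!
# Project RC, job SUP: the exponential supermartingale
-/

set_option autoImplicit false

namespace Pool.Agent.Q299.RC

open Finset Pool.Agent.Q120.RC

open Classical in
/-- The exponent. -/
noncomputable def ex (r : ℕ → Finset ℕ → ℝ) (W : ℕ → Finset ℕ → Prop) (s : ℝ) (x : ℕ) (T : Finset ℕ) : ℝ :=
  s * ((range x).filter (fun n => n ∈ T ∧ W n (pre T n))).card
    - (Real.exp s - 1) * ∑ n ∈ (range x).filter (fun n => W n (pre T n)), r n (pre T n)

open Classical in
theorem ex_eq (r : ℕ → Finset ℕ → ℝ) (W : ℕ → Finset ℕ → Prop) (s : ℝ) (x : ℕ) (T : Finset ℕ) :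
    ex r W s x T = ∑ n ∈ range x, (s * (if n ∈ T ∧ W n (pre T n) then 1 else 0)
      - (Real.exp s - 1) * (if W n (pre T n) then r n (pre T n) else 0)) := by
  unfold ex
  rw [card_filter, sum_filter, Nat.cast_sum, mul_sum, mul_sum, ← sum_sub_distrib]
  apply sum_congr rfl
  intro n _
  push_cast
  rfl

open Classical in
theorem ex_succ (r : ℕ → Finset ℕ → ℝ) (W : ℕ → Finset ℕ → Prop) (s : ℝ) {x : ℕ} {T : Finset ℕ} (h : T ⊆ range x) :
    ex r W s (x + 1) T = ex r W s x T - (Real.exp s - 1) * (if W x T then r x T else 0) := by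
  have h1 : x ∉ T := fun h2 => by simpa using h h2
  rw [ex_eq, ex_eq, sum_range_succ, pre_self h, if_neg (fun h2 => h1 h2.1)]
  ring

open Classical in
theorem ex_insert (r : ℕ → Finset ℕ → ℝ) (W : ℕ → Finset ℕ → Prop) (s : ℝ) {x : ℕ} {T : Finset ℕ} (h : T ⊆ range x) :
    ex r W s (x + 1) (insert x T) = ex r W s x T + s * (if W x T then 1 else 0)
      - (Real.exp s - 1) * (if W x T then r x T else 0) := by
  rw [ex_eq, ex_eq, sum_range_succ, pre_insert le_rfl, pre_self h]
  have h1 : ∑ n ∈ range x, (s * (if n ∈ insert x T ∧ W n (pre (insert x T) n) then 1 else 0)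
      - (Real.exp s - 1) * (if W n (pre (insert x T) n) then r n (pre (insert x T) n) else 0)) =
      ∑ n ∈ range x, (s * (if n ∈ T ∧ W n (pre T n) then 1 else 0)
      - (Real.exp s - 1) * (if W n (pre T n) then r n (pre T n) else 0)) := by
    apply sum_congr rfl
    intro n hn
    rw [mem_range] at hn
    have h2 : n ∈ insert x T ↔ n ∈ T := by
      rw [mem_insert]
      constructor
      · rintro (h3 | h3)
        · omega
        · exact h3
      · exact Or.inr
    rw [pre_insert hn.le]
    simp only [h2]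
  rw [h1]
  have h2 : (x ∈ insert x T ∧ W x T) ↔ W x T := by simp
  simp only [h2]
  ring

theorem key_le (r s : ℝ) : (1 - r) * Real.exp (-((Real.exp s - 1) * r)) + r * Real.exp (s - (Real.exp s - 1) * r) ≤ 1 := by
  have h1 : Real.exp (s - (Real.exp s - 1) * r) = Real.exp s * Real.exp (-((Real.exp s - 1) * r)) := by
    rw [← Real.exp_add]
    congr 1
  rw [h1]
  have h2 := Real.add_one_le_exp ((Real.exp s - 1) * r)
  have h3 : 0 < Real.exp (-((Real.exp s - 1) * r)) := Real.exp_pos _
  have h4 : Real.exp ((Real.exp s - 1) * r) * Real.exp (-((Real.exp s - 1) * r)) = 1 := by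
    rw [← Real.exp_add]
    simp
  calc (1 - r) * Real.exp (-((Real.exp s - 1) * r)) + r * (Real.exp s * Real.exp (-((Real.exp s - 1) * r)))
      = ((Real.exp s - 1) * r + 1) * Real.exp (-((Real.exp s - 1) * r)) := by ring
    _ ≤ Real.exp ((Real.exp s - 1) * r) * Real.exp (-((Real.exp s - 1) * r)) := mul_le_mul_of_nonneg_right h2 h3.le
    _ = 1 := h4

theorem sup_aux {r : ℕ → Finset ℕ → ℝ} (hr : ∀ n T, 0 ≤ r n T ∧ r n T ≤ 1) (W : ℕ → Finset ℕ → Prop) (s : ℝ) (x : ℕ) :
    ∑ T ∈ (range x).powerset, seqlaw r x T * Real.exp (ex r W s x T) ≤ 1 := by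
  classical
  induction x with
  | zero =>
    simp [seqlaw, ex]
  | succ x ih =>
    rw [sum_split]
    refine le_trans (sum_le_sum fun T hT => ?_) ih
    rw [mem_powerset] at hT
    rw [seqlaw_succ r hT, seqlaw_insert r hT, ex_succ r W s hT, ex_insert r W s hT]
    have h0 : 0 ≤ seqlaw r x T * Real.exp (ex r W s x T) := mul_nonneg (seqlaw_nonneg hr x T) (Real.exp_pos _).le
    by_cases hW : W x T
    · rw [if_pos hW, if_pos hW, mul_one]
      have h1 := key_le (r x T) s
      have h2 : seqlaw r x T * (1 - r x T) * Real.exp (ex r W s x T - (Real.exp s - 1) * r x T) +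
          seqlaw r x T * r x T * Real.exp (ex r W s x T + s - (Real.exp s - 1) * r x T) =
          (seqlaw r x T * Real.exp (ex r W s x T)) *
          ((1 - r x T) * Real.exp (-((Real.exp s - 1) * r x T)) + r x T * Real.exp (s - (Real.exp s - 1) * r x T)) := by
        have h3 : Real.exp (ex r W s x T - (Real.exp s - 1) * r x T) = Real.exp (ex r W s x T) * Real.exp (-((Real.exp s - 1) * r x T)) := by
          rw [← Real.exp_add]
          congr 1
        have h4 : Real.exp (ex r W s x T + s - (Real.exp s - 1) * r x T) = Real.exp (ex r W s x T) * Real.exp (s - (Real.exp s - 1) * r x T) := by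
          rw [← Real.exp_add]
          congr 1
          ring
        rw [h3, h4]
        ring
      rw [h2]
      exact mul_le_of_le_one_right h0 h1
    · rw [if_neg hW, if_neg hW]
      simp only [mul_zero, add_zero, sub_zero]
      apply le_of_eq
      ring

theorem t_SUP : J_SUP := by
  intro r hr W s x
  exact sup_aux hr W s x

end Pool.Agent.Q299.RC
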